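import Pool.Agent.helper88.T8.Spec
import Pool.Agent.helper11.T5.TR
import Pool.Agent.helper92.T5.SZ

set_option autoImplicit false

/-!
# T8 (MP_16912e_nt), row TF8: all tuples of all conductors
-/

namespace Pool.Agent.T8

open Finset NumberField Pool.Agent.helper3.FT Pool.Agent.helper47.RA Pool.Agent.T5 Pool.Agent.T6 Pool.Agent.T7
open scoped nonZeroDivisors

theorem TF8_log (δ K : ℝ) (hδ : 0 < δ) (hK : 0 < K) : ∃ N₀ : ℝ, 1 ≤ N₀ ∧ ∀ N : ℝ, N₀ ≤ N → K * Real.log N ^ 2 ≤ N ^ δ := by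
  have h := (isLittleO_log_rpow_rpow_atTop (2 : ℝ) hδ).bound (inv_pos.mpr hK)
  obtain ⟨M, hM⟩ := Filter.eventually_atTop.mp h
  refine ⟨max M 1, le_max_right _ _, fun N hN => ?_⟩
  have h1 := hM N ((le_max_left _ _).trans hN)
  have hN1 : 1 ≤ N := (le_max_right _ _).trans hN
  have hN0 : 0 < N := by linarith
  rw [Real.rpow_two, Real.norm_eq_abs, Real.norm_eq_abs, abs_of_nonneg (by positivity), abs_of_pos (Real.rpow_pos_of_pos hN0 _)] at h1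
  calc K * Real.log N ^ 2 ≤ K * (K⁻¹ * N ^ δ) := mul_le_mul_of_nonneg_left h1 hK.le
    _ = N ^ δ := by rw [← mul_assoc, mul_inv_cancel₀ hK.ne', one_mul]

theorem TF8_gg {K : ℝ} (hK : 0 ≤ K) (p a : ℕ) : 0 ≤ gg K p a := by
  unfold gg
  positivity

theorem TF8_hh {K : ℝ} (hK : 0 ≤ K) (p a : ℕ) : 0 ≤ hh K p a := by
  unfold hh
  positivity

/-- the conductors are at most `N ^ 2` -/
theorem TF8_d (κ A N Y : ℝ) (hκ : 0 < κ) (hA : 1 ≤ A) (hN : 8 * A ^ 2 ≤ N) (hN1 : 1 ≤ N) (hY1 : 1 ≤ Y) (hYA : Y ^ 2 ≤ A * N)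
    (d : ℕ) (hd : 1 ≤ d) (t : Tpl) (ht : Ce κ (N * (d : ℝ) ^ 2) Y t) : (d : ℝ) ≤ N ^ 2 := by
  have hN0 : 0 < N := by linarith
  have hY0 : 0 < Y := by linarith
  have hd0 : (0 : ℝ) < d := by exact_mod_cast hd
  have hκY : 0 < κ * Y := mul_pos hκ hY0
  have hZr : (0 : ℝ) < (t.2.2.2 : ℝ) := lt_of_lt_of_le hκY ht.z1
  have hLr : (0 : ℝ) < (Pool.Agent.T5.lam t : ℝ) := lt_of_lt_of_le hκY ht.l1
  have hZ : 0 < t.2.2.2 := by exact_mod_cast hZr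
  have hL : 0 < Pool.Agent.T5.lam t := by exact_mod_cast hLr
  have hDr : (0 : ℝ) < -(dis t : ℝ) := by
    have h1 : 0 < N * (d : ℝ) ^ 2 / 2 := by positivity
    exact h1.trans ht.d1
  have hD : dis t < 0 := by
    have : (dis t : ℝ) < 0 := by linarith
    exact_mod_cast this
  have hs := (SZ TR t ht.tt hZ hL hD).1
  have hn : (1 : ℝ) ≤ (t.1.1 : ℝ) := by exact_mod_cast ht.tt.n1
  have hsD : 0 ≤ √(-(dis t : ℝ)) := Real.sqrt_nonneg _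
  have h1 : √(-(dis t : ℝ)) ≤ 2 * Y * √Y := by
    have e1 : 1 * √(-(dis t : ℝ)) ≤ (t.1.1 : ℝ) * √(-(dis t : ℝ)) := mul_le_mul_of_nonneg_right hn hsD
    have e2 : 2 * (t.2.2.2 : ℝ) * √(Pool.Agent.T5.lam t : ℝ) ≤ 2 * Y * √Y := by
      apply mul_le_mul _ (Real.sqrt_le_sqrt ht.l2) (Real.sqrt_nonneg _) (by positivity)
      linarith [ht.z2]
    linarith
  have h2 : -(dis t : ℝ) ≤ 4 * Y ^ 3 := by
    have e1 : √(-(dis t : ℝ)) ^ 2 ≤ (2 * Y * √Y) ^ 2 := pow_le_pow_left₀ hsD h1 2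
    rw [Real.sq_sqrt hDr.le] at e1
    have e2 : (2 * Y * √Y) ^ 2 = 4 * Y ^ 2 * √Y ^ 2 := by ring
    rw [e2, Real.sq_sqrt hY0.le] at e1
    calc -(dis t : ℝ) ≤ 4 * Y ^ 2 * Y := e1
      _ = 4 * Y ^ 3 := by ring
  have h3 : N * (d : ℝ) ^ 2 ≤ 8 * Y ^ 3 := by
    have := ht.d1
    linarith
  have h4 : Y ^ 3 ≤ A ^ 2 * N ^ 2 := by
    have e1 : Y ^ 3 ≤ Y ^ 4 := pow_le_pow_right₀ hY1 (by norm_num)
    have e2 : Y ^ 4 ≤ (A * N) ^ 2 := by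
      have : Y ^ 4 = (Y ^ 2) ^ 2 := by ring
      rw [this]
      exact pow_le_pow_left₀ (by positivity) hYA 2
    have e3 : (A * N) ^ 2 = A ^ 2 * N ^ 2 := by ring
    linarith
  have h5 : (d : ℝ) ^ 2 ≤ 8 * A ^ 2 * N := by
    have e1 : N * (d : ℝ) ^ 2 ≤ N * (8 * A ^ 2 * N) := by
      calc N * (d : ℝ) ^ 2 ≤ 8 * Y ^ 3 := h3
        _ ≤ 8 * (A ^ 2 * N ^ 2) := by linarith
        _ = N * (8 * A ^ 2 * N) := by ring
    exact le_of_mul_le_mul_left e1 hN0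
  have h6 : (d : ℝ) ^ 2 ≤ (N ^ 2) ^ 2 := by
    have e1 : 8 * A ^ 2 * N ≤ N * N := mul_le_mul_of_nonneg_right hN hN0.le
    have e2 : N * N ≤ (N ^ 2) ^ 2 := by
      have e3 : (N ^ 2) ^ 2 = (N * N) * (N * N) := by ring
      rw [e3]
      have e4 : 1 ≤ N * N := by nlinarith
      nlinarith
    linarith
  exact (abs_le_of_sq_le_sq' h6 (by positivity)).2

/-- the bound for one conductor -/
theorem TF8_one (A N Y C₁ G H : ℝ) (d : ℕ) (hA : 1 ≤ A) (hN1 : 1 ≤ N) (hY1 : 1 ≤ Y) (hYA : Y ^ 2 ≤ A * N)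
    (hC₁ : 1 ≤ C₁) (hd1 : 1 ≤ d) (hG : 0 ≤ G) (hH : 0 ≤ H) (hE1 : Real.log N ^ 2 ≤ N ^ (0.19 / 8 : ℝ))
    (hE2 : A ^ 3 * Real.log N ^ 2 ≤ N ^ (0.051 : ℝ)) (c : ℝ)
    (h1 : (d : ℝ) ≤ N ^ (0.19 : ℝ) → c ≤ C₁ * (Y ^ 2 * G + 0 * H))
    (h2 : c ≤ C₁ * (Real.log N ^ 2 * Y ^ 2 * G + Real.log N ^ 2 * (Y ^ 7 / (N ^ 2 * (d : ℝ) ^ 4)) * H)) :
    c ≤ C₁ * Y ^ 2 * (2 * ((d : ℝ) ^ (1 / 8 : ℝ) * G) + (d : ℝ) ^ (-(11 / 10) : ℝ) * H) := by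
  have hN0 : 0 < N := by linarith
  have hY0 : 0 < Y := by linarith
  have hA0 : 0 < A := by linarith
  have hdr : (1 : ℝ) ≤ d := by exact_mod_cast hd1
  have hd0 : (0 : ℝ) < d := by linarith
  have hd8 : 1 ≤ (d : ℝ) ^ (1 / 8 : ℝ) := Real.one_le_rpow hdr (by norm_num)
  have hd11 : 0 < (d : ℝ) ^ (-(11 / 10) : ℝ) := Real.rpow_pos_of_pos hd0 _
  by_cases hd : (d : ℝ) ≤ N ^ (0.19 : ℝ)
  · refine (h1 hd).trans ?_
    rw [zero_mul, add_zero, mul_assoc C₁]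
    apply mul_le_mul_of_nonneg_left _ (by linarith)
    apply mul_le_mul_of_nonneg_left _ (by positivity)
    have e1 : G ≤ (d : ℝ) ^ (1 / 8 : ℝ) * G := le_mul_of_one_le_left hG hd8
    have e2 : 0 ≤ (d : ℝ) ^ (-(11 / 10) : ℝ) * H := by positivity
    linarith
  · push Not at hd
    refine h2.trans ?_
    rw [mul_assoc C₁]
    apply mul_le_mul_of_nonneg_left _ (by linarith)
    -- the first term
    have hp1 : N ^ (0.19 / 8 : ℝ) ≤ (d : ℝ) ^ (1 / 8 : ℝ) := by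
      calc N ^ (0.19 / 8 : ℝ) = (N ^ (0.19 : ℝ)) ^ (1 / 8 : ℝ) := by
            rw [← Real.rpow_mul hN0.le]
            norm_num
        _ ≤ (d : ℝ) ^ (1 / 8 : ℝ) := Real.rpow_le_rpow (by positivity) hd.le (by norm_num)
    have t1 : Real.log N ^ 2 * Y ^ 2 * G ≤ Y ^ 2 * ((d : ℝ) ^ (1 / 8 : ℝ) * G) := by
      have e1 : Real.log N ^ 2 * G ≤ (d : ℝ) ^ (1 / 8 : ℝ) * G := mul_le_mul_of_nonneg_right (hE1.trans hp1) hG
      calc Real.log N ^ 2 * Y ^ 2 * G = Y ^ 2 * (Real.log N ^ 2 * G) := by ring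
        _ ≤ Y ^ 2 * ((d : ℝ) ^ (1 / 8 : ℝ) * G) := mul_le_mul_of_nonneg_left e1 (by positivity)
    -- the second term
    have hp2 : N ^ (0.551 : ℝ) ≤ (d : ℝ) ^ (29 / 10 : ℝ) := by
      calc N ^ (0.551 : ℝ) = (N ^ (0.19 : ℝ)) ^ (29 / 10 : ℝ) := by
            rw [← Real.rpow_mul hN0.le]
            norm_num
        _ ≤ (d : ℝ) ^ (29 / 10 : ℝ) := Real.rpow_le_rpow (by positivity) hd.le (by norm_num)
    have hd4 : (d : ℝ) ^ 4 = (d : ℝ) ^ (11 / 10 : ℝ) * (d : ℝ) ^ (29 / 10 : ℝ) := by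
      rw [← Real.rpow_add hd0, ← Real.rpow_natCast]
      norm_num
    have hY5 : Y ^ 5 ≤ A ^ 3 * N ^ 2 * N ^ (1 / 2 : ℝ) := by
      have e1 : Y ^ 4 ≤ A ^ 2 * N ^ 2 := by
        have : Y ^ 4 = (Y ^ 2) ^ 2 := by ring
        rw [this]
        calc (Y ^ 2) ^ 2 ≤ (A * N) ^ 2 := pow_le_pow_left₀ (by positivity) hYA 2
          _ = A ^ 2 * N ^ 2 := by ring
      have e2 : Y ≤ A * N ^ (1 / 2 : ℝ) := by
        have e3 : Y ^ 2 ≤ (A * N ^ (1 / 2 : ℝ)) ^ 2 := by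
          have e4 : (A * N ^ (1 / 2 : ℝ)) ^ 2 = A * (A * N) := by
            rw [mul_pow, ← Real.rpow_natCast (N ^ (1 / 2 : ℝ)) 2, ← Real.rpow_mul hN0.le]
            norm_num
            ring
          rw [e4]
          have e5 : 1 * (A * N) ≤ A * (A * N) := mul_le_mul_of_nonneg_right hA (by positivity)
          linarith
        exact (abs_le_of_sq_le_sq' e3 (by positivity)).2
      calc Y ^ 5 = Y ^ 4 * Y := by ring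
        _ ≤ (A ^ 2 * N ^ 2) * (A * N ^ (1 / 2 : ℝ)) := mul_le_mul e1 e2 hY0.le (by positivity)
        _ = A ^ 3 * N ^ 2 * N ^ (1 / 2 : ℝ) := by ring
    have hlogN : Real.log N ^ 2 * (A ^ 3 * N ^ (1 / 2 : ℝ)) ≤ N ^ (0.551 : ℝ) := by
      calc Real.log N ^ 2 * (A ^ 3 * N ^ (1 / 2 : ℝ)) = (A ^ 3 * Real.log N ^ 2) * N ^ (1 / 2 : ℝ) := by ring
        _ ≤ N ^ (0.051 : ℝ) * N ^ (1 / 2 : ℝ) := mul_le_mul_of_nonneg_right hE2 (by positivity)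
        _ = N ^ (0.551 : ℝ) := by
            rw [← Real.rpow_add hN0]
            norm_num
    have hkey : Real.log N ^ 2 * (Y ^ 7 / (N ^ 2 * (d : ℝ) ^ 4)) ≤ Y ^ 2 * (d : ℝ) ^ (-(11 / 10) : ℝ) := by
      have hp : 0 < (d : ℝ) ^ (11 / 10 : ℝ) := Real.rpow_pos_of_pos hd0 _
      have hp' : 0 < (d : ℝ) ^ (29 / 10 : ℝ) := Real.rpow_pos_of_pos hd0 _
      rw [Real.rpow_neg hd0.le, ← div_eq_mul_inv, ← mul_div_assoc, div_le_div_iff₀ (by positivity) hp, hd4]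
      calc Real.log N ^ 2 * Y ^ 7 * (d : ℝ) ^ (11 / 10 : ℝ) = (Real.log N ^ 2 * Y ^ 5) * (Y ^ 2 * (d : ℝ) ^ (11 / 10 : ℝ)) := by ring
        _ ≤ (Real.log N ^ 2 * (A ^ 3 * N ^ 2 * N ^ (1 / 2 : ℝ))) * (Y ^ 2 * (d : ℝ) ^ (11 / 10 : ℝ)) := by
            apply mul_le_mul_of_nonneg_right _ (by positivity)
            exact mul_le_mul_of_nonneg_left hY5 (by positivity)
        _ = (Real.log N ^ 2 * (A ^ 3 * N ^ (1 / 2 : ℝ))) * (N ^ 2 * (Y ^ 2 * (d : ℝ) ^ (11 / 10 : ℝ))) := by ring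
        _ ≤ (d : ℝ) ^ (29 / 10 : ℝ) * (N ^ 2 * (Y ^ 2 * (d : ℝ) ^ (11 / 10 : ℝ))) :=
            mul_le_mul_of_nonneg_right (hlogN.trans hp2) (by positivity)
        _ = Y ^ 2 * (N ^ 2 * ((d : ℝ) ^ (11 / 10 : ℝ) * (d : ℝ) ^ (29 / 10 : ℝ))) := by ring
    have t2 : Real.log N ^ 2 * (Y ^ 7 / (N ^ 2 * (d : ℝ) ^ 4)) * H ≤ Y ^ 2 * ((d : ℝ) ^ (-(11 / 10) : ℝ) * H) := by
      calc Real.log N ^ 2 * (Y ^ 7 / (N ^ 2 * (d : ℝ) ^ 4)) * H ≤ (Y ^ 2 * (d : ℝ) ^ (-(11 / 10) : ℝ)) * H :=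
            mul_le_mul_of_nonneg_right hkey hH
        _ = Y ^ 2 * ((d : ℝ) ^ (-(11 / 10) : ℝ) * H) := by ring
    have t3 : 0 ≤ Y ^ 2 * ((d : ℝ) ^ (1 / 8 : ℝ) * G) := by positivity
    calc Real.log N ^ 2 * Y ^ 2 * G + Real.log N ^ 2 * (Y ^ 7 / (N ^ 2 * (d : ℝ) ^ 4)) * H
        ≤ Y ^ 2 * ((d : ℝ) ^ (1 / 8 : ℝ) * G) + Y ^ 2 * ((d : ℝ) ^ (-(11 / 10) : ℝ) * H) := add_le_add t1 t2
      _ ≤ Y ^ 2 * (2 * ((d : ℝ) ^ (1 / 8 : ℝ) * G) + (d : ℝ) ^ (-(11 / 10) : ℝ) * H) := by linarith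

theorem TF8 (hWA8 : WA8_stmt) (hTG8 : TG8_stmt) (hTE8 : TE8_stmt) (hLOCA : LOCA_stmt) (hLOCB : LOCB_stmt) : TF8_stmt := by
  classical
  intro κ A hκ hκ1 hA
  obtain ⟨C₁, N₁, hC₁, hN₁, hW⟩ := hWA8 κ A hκ hκ1 hA
  obtain ⟨C₂, hC₂, hE⟩ := hTE8 (48 * C₁) (by linarith)
  obtain ⟨M1, hM1, hl1⟩ := TF8_log (0.19 / 8) 1 (by norm_num) one_pos
  obtain ⟨M2, hM2, hl2⟩ := TF8_log 0.051 (A ^ 3) (by norm_num) (by positivity)
  refine ⟨3 * C₁ * C₂, N₁ + M1 + M2 + 8 * A ^ 2, by nlinarith, by nlinarith [sq_nonneg A], ?_⟩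
  intro N Y hN hNY hYA F hF
  have hA2 : 0 ≤ 8 * A ^ 2 := by positivity
  have hN1 : 1 ≤ N := by linarith
  have hN0 : 0 < N := by linarith
  have hY1 : 1 ≤ Y := (Real.one_le_rpow hN1 (by norm_num)).trans hNY
  have hY0 : 0 < Y := by linarith
  have hE1 : Real.log N ^ 2 ≤ N ^ (0.19 / 8 : ℝ) := by
    have := hl1 N (by linarith)
    rwa [one_mul] at this
  have hE2 := hl2 N (by linarith)
  obtain ⟨hS1, hS2⟩ := hE ⌊N ^ 2⌋₊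
  have hmap : ∀ x ∈ F, x.1 ∈ Icc 1 ⌊N ^ 2⌋₊ := by
    intro x hx
    obtain ⟨h1, h2, -⟩ := hF x hx
    rw [Finset.mem_Icc]
    exact ⟨h1, Nat.le_floor (TF8_d κ A N Y hκ hA (by linarith) hN1 hY1 hYA x.1 h1 x.2 h2)⟩
  have hcard := Finset.card_eq_sum_card_fiberwise (f := Prod.fst) (s := F) (t := Icc 1 ⌊N ^ 2⌋₊) hmap
  have hone : ∀ d ∈ Icc 1 ⌊N ^ 2⌋₊, (((F.filter fun x => x.1 = d).card : ℕ) : ℝ) ≤
      C₁ * Y ^ 2 * (2 * ((d : ℝ) ^ (1 / 8 : ℝ) * ∏ p ∈ d.primeFactors, gg (48 * C₁) p (d.factorization p)) +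
        (d : ℝ) ^ (-(11 / 10) : ℝ) * ∏ p ∈ d.primeFactors, hh (48 * C₁) p (d.factorization p)) := by
    intro d hd
    rw [Finset.mem_Icc] at hd
    have hinj : Set.InjOn Prod.snd ((F.filter fun x => x.1 = d : Finset (ℕ × Tpl)) : Set (ℕ × Tpl)) := by
      intro x hx y hy hxy
      have h1 := (Finset.mem_filter.mp hx).2
      have h2 := (Finset.mem_filter.mp hy).2
      exact Prod.ext (h1.trans h2.symm) hxy
    rw [← Finset.card_image_of_injOn hinj]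
    have hP : ∀ t ∈ (F.filter fun x => x.1 = d).image Prod.snd, Ce κ (N * (d : ℝ) ^ 2) Y t ∧ (d : ℤ) ^ 2 ∣ dis t := by
      intro t ht
      obtain ⟨x, hx, rfl⟩ := Finset.mem_image.mp ht
      obtain ⟨hx1, hx2⟩ := Finset.mem_filter.mp hx
      obtain ⟨-, h2, h3⟩ := hF x hx1
      rw [hx2] at h2 h3
      exact ⟨h2, h3⟩
    refine TF8_one A N Y C₁ _ _ d hA hN1 hY1 hYA hC₁ hd.1 ?_ ?_ hE1 hE2 _ ?_ ?_
    · exact Finset.prod_nonneg fun p _ => TF8_gg (by linarith) _ _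
    · exact Finset.prod_nonneg fun p _ => TF8_hh (by linarith) _ _
    · intro hdN
      refine hTG8 hLOCA hLOCB κ N Y C₁ (Y ^ 2) 0 d hC₁ (by positivity) le_rfl hd.1 ?_ _ hP
      intro er es y hMd
      rw [zero_div, add_zero]
      exact (hW N Y (by linarith) hNY hYA d er es y hMd).1 hdN
    · refine hTG8 hLOCA hLOCB κ N Y C₁ (Real.log N ^ 2 * Y ^ 2) (Real.log N ^ 2 * (Y ^ 7 / (N ^ 2 * (d : ℝ) ^ 4))) d hC₁
        (by positivity) (by positivity) hd.1 ?_ _ hP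
      intro er es y hMd
      have h1 := (hW N Y (by linarith) hNY hYA d er es y hMd).2
      have e1 : Real.log N ^ 2 * (Y ^ 2 / ((er : ℝ) ^ 4 * (es : ℝ) ^ 3) + Y ^ 7 / (N ^ 2 * (d : ℝ) ^ 4) / ((er : ℝ) ^ 2 * (es : ℝ) ^ 2)) =
          Real.log N ^ 2 * Y ^ 2 / ((er : ℝ) ^ 4 * (es : ℝ) ^ 3) +
            Real.log N ^ 2 * (Y ^ 7 / (N ^ 2 * (d : ℝ) ^ 4)) / ((er : ℝ) ^ 2 * (es : ℝ) ^ 2) := by ring
      rw [e1] at h1
      exact h1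
  have hsum : (F.card : ℝ) ≤ C₁ * Y ^ 2 * (2 * (∑ d ∈ Icc 1 ⌊N ^ 2⌋₊, (d : ℝ) ^ (1 / 8 : ℝ) * ∏ p ∈ d.primeFactors, gg (48 * C₁) p (d.factorization p)) +
        ∑ d ∈ Icc 1 ⌊N ^ 2⌋₊, (d : ℝ) ^ (-(11 / 10) : ℝ) * ∏ p ∈ d.primeFactors, hh (48 * C₁) p (d.factorization p)) := by
    rw [hcard, Nat.cast_sum]
    refine (Finset.sum_le_sum hone).trans (le_of_eq ?_)
    rw [← Finset.mul_sum, Finset.sum_add_distrib, ← Finset.mul_sum]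
  refine hsum.trans ?_
  have hpos : 0 ≤ C₁ * Y ^ 2 := by positivity
  calc _ ≤ C₁ * Y ^ 2 * (2 * C₂ + C₂) := mul_le_mul_of_nonneg_left (by linarith) hpos
    _ = 3 * C₁ * C₂ * Y ^ 2 := by ring

end Pool.Agent.T8
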